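import Pool.Agent.Run7.h671.Post
import Pool.Agent.Run7.h671.Chi

/-!
# Chromatic number and rank for graphs whose neighbourhoods are closed under a Boolean operation
-/

set_option autoImplicit false

namespace Pool.Agent.Results.MP_3bd889_lc.ClosedNeighbourhoods

open Pool.Agent.Run7.h671

/-- the Boolean operation `f` is constant, or a coordinate, or the negation of a coordinate -/
def EssentiallyUnary {k : ℕ} (f : (Fin k → Bool) → Bool) : Prop :=
  (∃ b, ∀ a, f a = b) ∨ (∃ j, ∀ a, f a = a j) ∨ (∃ j, ∀ a, f a = !a j)

/-- The set of the neighbourhoods `N(v)` of the vertices of `G` is closed under the Boolean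
operation `f`, applied to each coordinate of their characteristic vectors. -/
def NbhdsClosed {V : Type} {k : ℕ} (f : (Fin k → Bool) → Bool) (G : SimpleGraph V)
    [DecidableRel G.Adj] : Prop :=
  ∀ x : Fin k → V, ∃ x', ∀ y, decide (G.Adj x' y) = f (fun j => decide (G.Adj (x j) y))

/-- one part, and one operation -/
lemma part_index {V : Type} [Fintype V] (G : SimpleGraph V) [DecidableRel G.Adj] {t k : ℕ}
    (part : V → Fin t) (f : V → (Fin k → Bool) → Bool) (hf : ∀ y, ¬ EssentiallyUnary (f y))
    (hcl : ∀ (i : Fin t) (x : Fin k → V), (∀ j, part (x j) = i) →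
        ∃ x', part x' = i ∧ ∀ y, part y = i →
          decide (G.Adj x' y) = f y (fun j => decide (G.Adj (x j) y)))
    (i : Fin t) (g : (Fin k → Bool) → Bool) :
    ∃ q : V → ℕ, (∀ y, q y < 2 * (G.adjMatrix ℝ).rank + 2) ∧
      ∀ y y', part y = i → part y' = i → f y = g → f y' = g → q y = q y' →
        ∀ x, part x = i → (G.Adj x y ↔ G.Adj x y') := by
  classical
  by_cases hg : ∃ y, f y = g
  · let F' : {x // part x = i} → {y // part y = i ∧ f y = g} → Bool :=
      fun x y => decide (G.Adj x.1 y.1)
    have h2 : ncol F' ≤ 2 * (rM F').rank + 2 := by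
      apply ncol_closed g
      · obtain ⟨y, rfl⟩ := hg
        exact hf y
      · intro x
        obtain ⟨x', hx', h3⟩ := hcl i (fun j => (x j).1) (fun j => (x j).2)
        refine ⟨⟨x', hx'⟩, fun y => ?_⟩
        have := h3 y.1 y.2.1
        rw [y.2.2] at this
        exact this
    have h3 : (rM F').rank ≤ (G.adjMatrix ℝ).rank := by
      have : rM F' = (G.adjMatrix ℝ).submatrix Subtype.val Subtype.val := by
        ext x y
        simp [rM, F', SimpleGraph.adjMatrix_apply]
      rw [this]
      exact Matrix.rank_submatrix_le _ _ _
    let S := Set.range (fun y x => F' x y)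
    let e := Finite.equivFin S
    have hS : Nat.card S ≤ 2 * (G.adjMatrix ℝ).rank + 2 := by
      have h4 : Nat.card S = ncol F' := by
        rw [Nat.card_coe_set_eq]
        rfl
      omega
    refine ⟨fun y => if h : part y = i ∧ f y = g then
      (e ⟨fun x => F' x ⟨y, h⟩, ⟨y, h⟩, rfl⟩ : ℕ) else 0, fun y => ?_, ?_⟩
    · dsimp only
      split_ifs with h
      · exact lt_of_lt_of_le (e ⟨fun x => F' x ⟨y, h⟩, ⟨y, h⟩, rfl⟩).2 hS
      · omega
    · intro y y' hp hp' hy hy' hqq x hx
      have hh : part y = i ∧ f y = g := ⟨hp, hy⟩
      have hh' : part y' = i ∧ f y' = g := ⟨hp', hy'⟩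
      simp only [hh, hh', dif_pos, and_self] at hqq
      have h1 := e.injective (Fin.ext hqq)
      have h5 := congrFun (Subtype.ext_iff.1 h1) ⟨x, hx⟩
      simpa [F'] using h5
  · refine ⟨fun _ => 0, fun _ => Nat.succ_pos _, fun y y' _ _ hy => ?_⟩
    exact absurd ⟨y, hy⟩ hg

/-- **Chromatic number and rank for graphs with closed sets of neighbourhoods; a dichotomy.**
`r` is the real rank of the adjacency matrix.

(1) Let the vertices of the graph `G` be divided into `t` parts, and let `f y` be, for each vertex
`y`, a `k`-ary Boolean operation which is not essentially unary, such that for any vertices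
`x_1, ..., x_k` of a part there is a vertex `x'` of the part whose adjacency to each vertex `y` of
the part is obtained from those of `x_1, ..., x_k` with `f y`. Then
`log₂ χ(G) ≤ log₂ (r + 1) + log₂ t + 2 ^ k + 1`.

(2) Conversely, the essentially unary operations have to be excluded, if they occur at all: for
every essentially unary operation which is not the constant `1`, every graph `H` is an induced
subgraph of a graph `G` of rank at most `rank H + 2` whose set of neighbourhoods is closed under the
operation. (The constant `1` does not occur: a vertex is not its own neighbour.) -/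
theorem result :
    (∀ (V : Type) [Fintype V] (G : SimpleGraph V) [DecidableRel G.Adj] (t k : ℕ) (part : V → Fin t)
      (f : V → (Fin k → Bool) → Bool),
      (∀ y, ¬ EssentiallyUnary (f y)) →
      (∀ (i : Fin t) (x : Fin k → V), (∀ j, part (x j) = i) →
        ∃ x', part x' = i ∧ ∀ y, part y = i →
          decide (G.Adj x' y) = f y (fun j => decide (G.Adj (x j) y))) →
      Real.logb 2 (G.chromaticNumber.toNat : ℝ) ≤
        Real.logb 2 ((G.adjMatrix ℝ).rank + 1) + Real.logb 2 t + 2 ^ k + 1) ∧
    (∀ (k : ℕ) (f : (Fin k → Bool) → Bool), EssentiallyUnary f → (∃ a, f a = false) →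
      ∀ (V : Type) [Fintype V] (H : SimpleGraph V) [DecidableRel H.Adj],
        ∃ (V' : Type) (_ : Fintype V') (G : SimpleGraph V') (_ : DecidableRel G.Adj) (e : V ↪ V'),
          (∀ x y, G.Adj (e x) (e y) ↔ H.Adj x y) ∧ NbhdsClosed f G ∧
          (G.adjMatrix ℝ).rank ≤ (H.adjMatrix ℝ).rank + 2) := by
  classical
  constructor
  · intro V _ G _ t k part f hf hcl
    choose q hq hq' using part_index G part f hf hcl
    set N := (G.adjMatrix ℝ).rank with hN
    let E : ((Fin k → Bool) → Bool) ≃ Fin (Fintype.card ((Fin k → Bool) → Bool)) :=
      Fintype.equivFin _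
    have hE : Fintype.card ((Fin k → Bool) → Bool) = 2 ^ 2 ^ k := by simp
    let C : G.Coloring (Fin t × (((Fin k → Bool) → Bool) × Fin (2 * N + 2))) :=
      SimpleGraph.Coloring.mk
        (fun v => (part v, f v, ⟨q (part v) (f v) v, hq _ _ v⟩)) (by
        intro u v huv heq
        simp only [Prod.mk.injEq, Fin.mk.injEq] at heq
        obtain ⟨h1, h2, h3⟩ := heq
        have h4 := hq' (part v) (f v) u v h1 rfl h2 rfl (by rw [← h3, h1, h2]) u h1
        exact G.loopless.irrefl u (h4.2 huv))
    have h2 := C.colorable
    rw [Fintype.card_prod, Fintype.card_prod, Fintype.card_fin, Fintype.card_fin, hE] at h2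
    have h3 := logb_chi_le' G _ _ h2 (by positivity)
    have h4 : Real.logb 2 (((2 ^ 2 ^ k * (2 * N + 2) : ℕ)) : ℝ) =
        2 ^ k + (1 + Real.logb 2 ((N : ℝ) + 1)) := by
      have e1 : (((2 ^ 2 ^ k * (2 * N + 2) : ℕ)) : ℝ) = 2 ^ (2 ^ k) * (2 * ((N : ℝ) + 1)) := by
        push_cast
        ring
      rw [e1, Real.logb_mul (by positivity) (by positivity),
        Real.logb_mul (by norm_num) (by positivity), Real.logb_pow]
      simp
    rw [h4] at h3
    linarith
  · intro k f hf hf0 V _ H _
    rcases hf with ⟨b, hb⟩ | ⟨j, hj⟩ | ⟨j, hj⟩
    · -- a constant: add an isolated vertex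
      have hb0 : b = false := by
        obtain ⟨a, ha⟩ := hf0
        rw [← hb a, ha]
      subst hb0
      let G : SimpleGraph (Option V) :=
        { Adj := fun x y => ∃ u v, x = some u ∧ y = some v ∧ H.Adj u v
          symm := ⟨by
            rintro x y ⟨u, v, rfl, rfl, h⟩
            exact ⟨v, u, rfl, rfl, h.symm⟩⟩
          loopless := ⟨by
            rintro x ⟨u, v, rfl, h1, h⟩
            rw [Option.some_inj] at h1
            subst h1
            exact H.loopless.irrefl u h⟩ }
      have hG : ∀ u v, G.Adj (some u) (some v) ↔ H.Adj u v := by
        intro u v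
        constructor
        · rintro ⟨u', v', h1, h2, h⟩
          rw [Option.some_inj] at h1 h2
          rwa [h1, h2]
        · intro h
          exact ⟨u, v, rfl, rfl, h⟩
      have hG1 : ∀ x, ¬ G.Adj none x := by
        rintro x ⟨u, v, h1, -⟩
        exact absurd h1 (by simp)
      have hG2 : ∀ x, ¬ G.Adj x none := by
        rintro x ⟨u, v, -, h1, -⟩
        exact absurd h1 (by simp)
      have hdec : DecidableRel G.Adj := Classical.decRel _
      refine ⟨Option V, inferInstance, G, hdec, ⟨some, Option.some_injective _⟩,
        fun x y => hG x y, ?_, ?_⟩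
      · intro x
        refine ⟨none, fun y => ?_⟩
        rw [hb, decide_eq_false_iff_not]
        exact hG1 y
      · refine le_trans ?_ (Nat.le_add_right _ 2)
        rw [Matrix.rank_eq_finrank_span_cols, Matrix.rank_eq_finrank_span_cols]
        let T : (V → ℝ) →ₗ[ℝ] (Option V → ℝ) :=
          { toFun := fun v p => match p with
              | some x => v x
              | none => 0
            map_add' := by
              intro v w
              funext p
              rcases p with _ | x <;> simp
            map_smul' := by
              intro r v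
              funext p
              rcases p with _ | x <;> simp }
        have h1 : Submodule.span ℝ (Set.range (G.adjMatrix ℝ).col) ≤
            (Submodule.span ℝ (Set.range (H.adjMatrix ℝ).col)).map T := by
          rw [Submodule.span_le]
          rintro _ ⟨y, rfl⟩
          rcases y with _ | y
          · have e : (G.adjMatrix ℝ).col none = 0 := by
              funext p
              simp [Matrix.col, SimpleGraph.adjMatrix_apply, hG2]
            rw [e]
            exact Submodule.zero_mem _
          · have e : (G.adjMatrix ℝ).col (some y) =
                T ((H.adjMatrix ℝ).col y) := by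
              funext p
              rcases p with _ | x
              · simp [Matrix.col, SimpleGraph.adjMatrix_apply, hG1, T]
              · simp [Matrix.col, SimpleGraph.adjMatrix_apply, hG, T, H.adj_comm x y]
            rw [e]
            exact Submodule.mem_map_of_mem (Submodule.subset_span ⟨y, rfl⟩)
        exact (Submodule.finrank_mono h1).trans (Submodule.finrank_map_le _ _)
    · -- a coordinate
      refine ⟨V, inferInstance, H, inferInstance, Function.Embedding.refl V, fun x y => Iff.rfl,
        ?_, Nat.le_add_right _ _⟩
      intro x
      exact ⟨x j, fun y => (hj (fun j => decide (H.Adj (x j) y))).symm⟩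
    · -- the negation of a coordinate
      let G : SimpleGraph (V × Bool) :=
        { Adj := fun x y => if x.2 = y.2 then H.Adj x.1 y.1 else ¬ H.Adj x.1 y.1
          symm := ⟨by
            intro x y h
            split_ifs at h with h1
            · rw [if_pos h1.symm]
              exact h.symm
            · rw [if_neg (fun h2 => h1 h2.symm)]
              exact fun h2 => h h2.symm⟩
          loopless := ⟨by
            intro x h
            rw [if_pos rfl] at h
            exact H.loopless.irrefl _ h⟩ }
      have hdec : DecidableRel G.Adj := Classical.decRel _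
      refine ⟨V × Bool, inferInstance, G, hdec, ⟨fun v => (v, false),
        fun u v h => (Prod.mk.inj h).1⟩, fun x y => ?_, ?_, ?_⟩
      · show (if (false = false) then H.Adj x y else ¬ H.Adj x y) ↔ H.Adj x y
        rw [if_pos rfl]
      · intro x
        refine ⟨((x j).1, !(x j).2), fun y => ?_⟩
        rw [hj]
        rcases x j with ⟨u, b⟩
        rcases y with ⟨v, c⟩
        have h1 : G.Adj (u, !b) (v, c) ↔ ¬ G.Adj (u, b) (v, c) := by
          show (if ((!b) = c) then H.Adj u v else ¬ H.Adj u v) ↔
            ¬ (if (b = c) then H.Adj u v else ¬ H.Adj u v)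
          cases b <;> cases c <;> simp
        simp only [h1]
        by_cases h2 : G.Adj (u, b) (v, c) <;> simp [h2]
      · rw [Matrix.rank_eq_finrank_span_cols, Matrix.rank_eq_finrank_span_cols]
        let T : (V → ℝ) →ₗ[ℝ] (V × Bool → ℝ) :=
          { toFun := fun v p => (if p.2 then -1 else 1) * v p.1
            map_add' := by
              intro v w
              funext p
              simp [mul_add]
            map_smul' := by
              intro r v
              funext p
              simp [mul_left_comm] }
        let w : Bool → V × Bool → ℝ := fun c p => if p.2 = c then 0 else 1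
        have h1 : Submodule.span ℝ (Set.range (G.adjMatrix ℝ).col) ≤
            (Submodule.span ℝ (Set.range (H.adjMatrix ℝ).col)).map T ⊔
              Submodule.span ℝ (Set.range w) := by
          rw [Submodule.span_le]
          rintro _ ⟨⟨y, c⟩, rfl⟩
          have e : (G.adjMatrix ℝ).col (y, c) =
              (if c then (-1 : ℝ) else 1) • T ((H.adjMatrix ℝ).col y) + w c := by
            funext p
            rcases p with ⟨x, b⟩
            have h2 : G.Adj (x, b) (y, c) ↔ if b = c then H.Adj x y else ¬ H.Adj x y := Iff.rfl
            simp only [Matrix.col, SimpleGraph.adjMatrix_apply, h2, T, w, Pi.add_apply,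
              Pi.smul_apply, LinearMap.coe_mk, AddHom.coe_mk, smul_eq_mul, Matrix.transpose_apply]
            by_cases h3 : H.Adj x y <;> cases b <;> cases c <;> simp [h3]
          rw [e]
          apply Submodule.add_mem_sup
          · exact Submodule.smul_mem _ _ (Submodule.mem_map_of_mem (Submodule.subset_span ⟨y, rfl⟩))
          · exact Submodule.subset_span ⟨c, rfl⟩
        refine (Submodule.finrank_mono h1).trans
          ((Submodule.finrank_add_le_finrank_add_finrank _ _).trans ?_)
        gcongr
        · exact Submodule.finrank_map_le _ _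
        · exact (finrank_range_le_card w).trans (by simp)

end Pool.Agent.Results.MP_3bd889_lc.ClosedNeighbourhoods
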