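import Pool.Agent.Run7.h671.Few

/-!
# Chromatic number and rank for graphs with few codegrees, and for graphs with few orbits on pairs
-/

set_option autoImplicit false

open Finset

namespace Pool.Agent.Results.MP_3bd889_lc.FewCodegrees

/-- The total weight (for the weights `w`) of the common neighbours of `u` and `v`. -/
noncomputable def codegree {V : Type} [Fintype V] (G : SimpleGraph V) [DecidableRel G.Adj]
    (w : V → ℝ) (u v : V) : ℝ :=
  ∑ y ∈ univ.filter (fun y => G.Adj u y ∧ G.Adj v y), w y

/-- The different weighted codegrees of `u` and the vertices `v` in the part of `u` whose set of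
neighbours does not contain that of `u`. -/
def codegrees {V : Type} [Fintype V] (G : SimpleGraph V) [DecidableRel G.Adj] {t : ℕ}
    (part : V → Fin t) (w : V → ℝ) (u : V) : Set ℝ :=
  {m | ∃ v, part v = part u ∧ ¬ (∀ y, G.Adj u y → G.Adj v y) ∧ m = codegree G w u v}

theorem colour {V : Type} [Fintype V] (G : SimpleGraph V) [DecidableRel G.Adj] (t s : ℕ)
    (part : V → Fin t) (w : V → ℝ) (hw : ∀ v, 0 < w v)
    (hs : ∀ u, (codegrees G part w u).ncard ≤ s) :
    G.Colorable (t * ((G.adjMatrix ℝ).rank + 1) ^ s) := by
  classical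
  set N := ((G.adjMatrix ℝ).rank + 1) ^ s with hN
  have hrk : (Pool.Agent.Run7.h671.Few.rM (fun x y => G.Adj x y)).rank = (G.adjMatrix ℝ).rank := by
    congr 1
  -- one part
  have h1 : ∀ i : Fin t, ∃ q : V → ℕ, (∀ v, q v < N) ∧
      ∀ u v, part u = i → part v = i → q u = q v → ∀ y, G.Adj u y ↔ G.Adj v y := by
    intro i
    let S : Finset (V → Prop) := (univ.filter fun v => part v = i).image (fun v y => G.Adj v y)
    have hg : ∀ c : S, ∃ v, part v = i ∧ (fun y => G.Adj v y) = c.1 := by
      intro c
      obtain ⟨v, hv, hv'⟩ := mem_image.1 c.2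
      exact ⟨v, (mem_filter.1 hv).2, hv'⟩
    choose g hg1 hg2 using hg
    have hginj : Function.Injective g := by
      intro c d hcd
      apply Subtype.ext
      rw [← hg2 c, ← hg2 d, hcd]
    let U : Finset V := univ.image g
    have hU : U.card ≤ N := by
      have h2 := Pool.Agent.Run7.h671.Few.few (fun x y => G.Adj x y) w hw U s ?_ ?_
      · refine h2.trans ?_
        rw [hrk]
        exact Pool.Agent.Run7.h671.Few.sum_choose_le _ _
      · intro u hu v hv huv
        obtain ⟨c, -, rfl⟩ := mem_image.1 hu
        obtain ⟨d, -, rfl⟩ := mem_image.1 hv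
        congr 1
        apply Subtype.ext
        rw [← hg2 c, ← hg2 d]
        funext y
        exact propext (huv y)
      · intro u hu
        obtain ⟨c, -, rfl⟩ := mem_image.1 hu
        refine le_trans ?_ (hs (g c))
        rw [← Set.ncard_coe_finset]
        apply Set.ncard_le_ncard
        · intro m hm
          obtain ⟨v, hv, rfl⟩ := mem_image.1 (mem_coe.1 hm)
          obtain ⟨hv1, hv2⟩ := mem_filter.1 hv
          obtain ⟨d, -, rfl⟩ := mem_image.1 hv1
          exact ⟨g d, (hg1 d).trans (hg1 c).symm, hv2, rfl⟩
        · apply Set.Finite.subset (Set.finite_range (fun v => codegree G w (g c) v))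
          rintro m ⟨v, -, -, rfl⟩
          exact ⟨v, rfl⟩
    have hUS : U.card = S.card := by
      rw [card_image_of_injective _ hginj, card_univ, Fintype.card_coe]
    let e := S.equivFin
    refine ⟨fun v => if h : part v = i then
      (e ⟨fun y => G.Adj v y, mem_image_of_mem _ (by simpa using h)⟩ : ℕ) else 0, ?_, ?_⟩
    · intro v
      dsimp only
      split_ifs with h
      · exact lt_of_lt_of_le (e _).2 (hUS ▸ hU)
      · exact Nat.pos_of_ne_zero (by rw [hN]; positivity)
    · intro u v hu hv huv y
      simp only [hu, hv, dif_pos] at huv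
      have h3 := e.injective (Fin.ext huv)
      have h4 := congrFun (Subtype.ext_iff.1 h3) y
      exact iff_of_eq h4
  choose q hq hq' using h1
  let C : G.Coloring (Fin t × Fin N) := SimpleGraph.Coloring.mk
    (fun v => (part v, ⟨q (part v) v, hq _ v⟩)) (by
      intro u v huv heq
      simp only [Prod.mk.injEq, Fin.mk.injEq] at heq
      have h2 : q (part v) u = q (part v) v := by
        have := heq.2
        rwa [heq.1] at this
      have h3 := hq' (part v) u v heq.1 rfl h2 v
      exact G.loopless.irrefl v (h3.1 huv))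
  have h2 := C.colorable
  rwa [Fintype.card_prod, Fintype.card_fin, Fintype.card_fin] at h2

/-- **Few codegrees.** Let `G` be a finite graph whose adjacency matrix has real rank `r`.
(1) Let the vertices be divided into `t` parts and let `w > 0` be weights of the vertices, such that
for each vertex `u` the total weight of `N(u) ∩ N(v)` takes at most `s` values for the vertices `v`
in the part of `u` with `N(u)` not contained in `N(v)`. Then `log₂ χ(G) ≤ s log₂ (r + 1) + log₂ t`.
(2) Let a group `H` act on `G` by automorphisms with at most `t` orbits of vertices, such that the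
stabiliser of each vertex `u` has at most `s + 1` orbits on the orbit of `u`. Then
`log₂ χ(G) ≤ s log₂ (r + 1) + log₂ t`. -/
theorem result (V : Type) [Fintype V] (G : SimpleGraph V) [DecidableRel G.Adj] (t s : ℕ) :
    (∀ (part : V → Fin t) (w : V → ℝ), (∀ v, 0 < w v) →
      (∀ u, (codegrees G part w u).ncard ≤ s) →
      Real.logb 2 (G.chromaticNumber.toNat : ℝ) ≤
        s * Real.logb 2 ((G.adjMatrix ℝ).rank + 1) + Real.logb 2 t) ∧
    (∀ (H : Type) [Group H] [MulAction H V],
      (∀ (g : H) (u v : V), G.Adj (g • u) (g • v) ↔ G.Adj u v) →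
      Nat.card (MulAction.orbitRel.Quotient H V) ≤ t →
      (∀ u : V, Nat.card (MulAction.orbitRel.Quotient (MulAction.stabilizer H u)
        (MulAction.orbit H u)) ≤ s + 1) →
      Real.logb 2 (G.chromaticNumber.toNat : ℝ) ≤
        s * Real.logb 2 ((G.adjMatrix ℝ).rank + 1) + Real.logb 2 t) := by
  classical
  have main : ∀ (part : V → Fin t) (w : V → ℝ), (∀ v, 0 < w v) →
      (∀ u, (codegrees G part w u).ncard ≤ s) →
      Real.logb 2 (G.chromaticNumber.toNat : ℝ) ≤
        s * Real.logb 2 ((G.adjMatrix ℝ).rank + 1) + Real.logb 2 t := by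
    intro part w hw hs
    have hcol := colour G t s part w hw hs
    have hle : G.chromaticNumber.toNat ≤ t * ((G.adjMatrix ℝ).rank + 1) ^ s := by
      have := ENat.toNat_le_toNat hcol.chromaticNumber_le (ENat.natCast_ne_top _)
      rwa [ENat.toNat_natCast] at this
    have hr1 : (0 : ℝ) < (G.adjMatrix ℝ).rank + 1 := by positivity
    have hr2 : 0 ≤ Real.logb 2 (((G.adjMatrix ℝ).rank : ℝ) + 1) :=
      Real.logb_nonneg (by norm_num) (by linarith [Nat.cast_nonneg (α := ℝ) (G.adjMatrix ℝ).rank])
    rcases Nat.eq_zero_or_pos t with h0 | h0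
    · have h1 : G.chromaticNumber.toNat = 0 := by
        rw [h0, zero_mul] at hle
        omega
      rw [h1, h0]
      simp only [Nat.cast_zero, Real.logb_zero, add_zero]
      positivity
    · have ht : (0 : ℝ) < t := by exact_mod_cast h0
      have h2 : (s : ℝ) * Real.logb 2 ((G.adjMatrix ℝ).rank + 1) + Real.logb 2 t =
          Real.logb 2 ((t : ℝ) * ((G.adjMatrix ℝ).rank + 1) ^ s) := by
        rw [Real.logb_mul ht.ne' (by positivity), Real.logb_pow]
        ring
      rw [h2]
      rcases Nat.eq_zero_or_pos G.chromaticNumber.toNat with h3 | h3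
      · rw [h3, Nat.cast_zero, Real.logb_zero, ← h2]
        have : 0 ≤ Real.logb 2 (t : ℝ) := Real.logb_nonneg (by norm_num) (by exact_mod_cast h0)
        positivity
      · apply Real.logb_le_logb_of_le (by norm_num) (by exact_mod_cast h3)
        exact_mod_cast hle
  refine ⟨main, ?_⟩
  intro H _ _ hadj ht hst
  let Q := MulAction.orbitRel.Quotient H V
  haveI : Finite Q := Quotient.finite _
  let e := Finite.equivFin Q
  let part : V → Fin t := fun v => Fin.castLE ht (e (Quotient.mk _ v))
  have hpart : ∀ u v, part v = part u → v ∈ MulAction.orbit H u := by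
    intro u v h
    have h1 : e (Quotient.mk _ v) = e (Quotient.mk _ u) := by
      have := congrArg (fun x : Fin t => (x : ℕ)) h
      simp only [part, Fin.val_castLE] at this
      exact Fin.ext this
    exact MulAction.orbitRel_apply.1 (Quotient.exact (e.injective h1))
  apply main part (fun _ => 1) (fun _ => one_pos)
  intro u
  -- the codegree as a function on the orbits of the stabiliser
  have hinv : ∀ (g : H) (v : V), g • u = u →
      codegree G (fun _ => 1) u (g • v) = codegree G (fun _ => 1) u v := by
    intro g v hg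
    unfold codegree
    refine Finset.sum_bij' (fun y _ => g⁻¹ • y) (fun y _ => g • y) ?_ ?_ ?_ ?_ ?_
    · intro y hy
      simp only [mem_filter, mem_univ, true_and] at hy ⊢
      refine ⟨?_, ?_⟩
      · rw [← hadj g, smul_inv_smul, hg]
        exact hy.1
      · rw [← hadj g, smul_inv_smul]
        exact hy.2
    · intro y hy
      simp only [mem_filter, mem_univ, true_and] at hy ⊢
      refine ⟨?_, ?_⟩
      · have := (hadj g u y).2 hy.1
        rwa [hg] at this
      · exact (hadj g v y).2 hy.2
    · intro y _
      rw [smul_inv_smul]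
    · intro y _
      rw [inv_smul_smul]
    · intro y _
      rfl
  let P := MulAction.orbitRel.Quotient (MulAction.stabilizer H u) (MulAction.orbit H u)
  haveI : Finite (MulAction.orbit H u) := Subtype.finite
  haveI : Finite P := Quotient.finite _
  let φ : P → ℝ := fun p => Quotient.liftOn' p
    (fun v : MulAction.orbit H u => codegree G (fun _ => 1) u v.1) (by
      intro v v' hvv
      obtain ⟨g, rfl⟩ := MulAction.orbitRel_apply.1 hvv
      exact hinv g.1 v'.1 g.2)
  let p₀ : P := Quotient.mk'' ⟨u, MulAction.mem_orbit_self u⟩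
  have hsub : codegrees G part (fun _ => 1) u ⊆ φ '' (Set.univ \ {p₀}) := by
    rintro m ⟨v, hv1, hv2, rfl⟩
    refine ⟨Quotient.mk'' ⟨v, hpart u v hv1⟩, ⟨Set.mem_univ _, ?_⟩, rfl⟩
    intro h
    have h1 : (Quotient.mk'' ⟨v, hpart u v hv1⟩ : P) = p₀ := h
    have h2 := MulAction.orbitRel_apply.1 (Quotient.exact' h1)
    obtain ⟨g, hg⟩ := h2
    have h3 : g.1 • u = v := congrArg Subtype.val hg
    have h4 : g.1 • u = u := g.2
    rw [h4] at h3
    apply hv2
    rw [← h3]
    exact fun y hy => hy
  refine (Set.ncard_le_ncard hsub (Set.toFinite _)).trans ((Set.ncard_image_le (Set.toFinite _)).trans ?_)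
  have h5 : (Set.univ \ {p₀} : Set P).ncard + 1 = Nat.card P := by
    rw [Set.ncard_diff_singleton_add_one (Set.mem_univ _) (Set.toFinite _), Set.ncard_univ]
  have h6 := hst u
  have h7 : Nat.card P ≤ s + 1 := h6
  omega

end Pool.Agent.Results.MP_3bd889_lc.FewCodegrees
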