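import Pool.Agent.Run7.h671.SignK
import Pool.Agent.N609.AndRank.Graph

/-!
# Chromatic number and rank for graphs whose adjacency is given by signs of inner products

The theorem of `MP_e5d384_lc.SignRankProtocols` (helper284) is extended to matrices which differ in
few entries of each row from a matrix of small sign rank; for graphs this means that nothing has to be
assumed about the diagonal, where geometric graphs usually have the wrong sign.
-/

set_option autoImplicit false

namespace Pool.Agent.Results.MP_3bd889_lc.SignRankGraphs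

open Pool.Agent.TH744.LR Finset

/-- The adjacency of different vertices of `W` is given by the sign of an inner product in `ℝ ^ s`:
`⟨p u, q v⟩` is positive if `u` and `v` are adjacent, and negative if not. Nothing is required of
`⟨p u, q u⟩`. -/
def SignRepresented {V : Type} (G : SimpleGraph V) (W : Set V) (s : ℕ) : Prop :=
  ∃ p q : V → Fin s → ℝ, ∀ u ∈ W, ∀ v ∈ W, u ≠ v →
    (G.Adj u v → 0 < ∑ i, p u i * q v i) ∧ (¬ G.Adj u v → ∑ i, p u i * q v i < 0)

/-- after a small change of the `p u` the inner products `⟨p u, q u⟩` do not vanish -/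
lemma perturb {A : Type} [Finite A] {s : ℕ} (p q : A → Fin s → ℝ)
    (h : ∀ u v : A, u ≠ v → ∑ i, p u i * q v i ≠ 0) (hA : Nontrivial A) :
    ∃ p' : A → Fin s → ℝ, (∀ u v : A, u ≠ v →
      ((0 < ∑ i, p u i * q v i) → 0 < ∑ i, p' u i * q v i) ∧
      ((∑ i, p u i * q v i < 0) → ∑ i, p' u i * q v i < 0)) ∧
      ∀ u, ∑ i, p' u i * q u i ≠ 0 := by
  classical
  have hq : ∀ u : A, 0 < ∑ i, q u i * q u i := by
    intro u
    obtain ⟨v, hv⟩ := exists_ne u
    have h1 := h v u hv
    rcases (Finset.sum_nonneg fun i (_ : i ∈ univ) => mul_self_nonneg (q u i)).lt_or_eq with h2 | h2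
    · exact h2
    · exfalso
      apply h1
      apply Finset.sum_eq_zero
      intro i hi
      have h3 := (Finset.sum_eq_zero_iff_of_nonneg
        (fun i (_ : i ∈ univ) => mul_self_nonneg (q u i))).1 h2.symm i hi
      rw [mul_self_eq_zero.1 h3, mul_zero]
  have hexp : ∀ (ε : ℝ) (u v : A), ∑ i, (p u i + ε * q u i) * q v i =
      ∑ i, p u i * q v i + ε * ∑ i, q u i * q v i := by
    intro ε u v
    rw [Finset.mul_sum, ← Finset.sum_add_distrib]
    exact Finset.sum_congr rfl fun i _ => by ring
  have hcont : ∀ u v : A, Filter.Tendsto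
      (fun ε : ℝ => ∑ i, p u i * q v i + ε * ∑ i, q u i * q v i) (nhdsWithin 0 (Set.Ioi 0))
      (nhds (∑ i, p u i * q v i)) := by
    intro u v
    have h1 : Filter.Tendsto (fun ε : ℝ => ∑ i, p u i * q v i + ε * ∑ i, q u i * q v i) (nhds 0)
        (nhds (∑ i, p u i * q v i + 0 * ∑ i, q u i * q v i)) := by
      apply Continuous.tendsto
      fun_prop
    rw [zero_mul, add_zero] at h1
    exact h1.mono_left nhdsWithin_le_nhds
  have hev : ∀ᶠ ε : ℝ in nhdsWithin 0 (Set.Ioi 0), ∀ u v : A,
      ((0 < ∑ i, p u i * q v i) → 0 < ∑ i, p u i * q v i + ε * ∑ i, q u i * q v i) ∧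
      ((∑ i, p u i * q v i < 0) → ∑ i, p u i * q v i + ε * ∑ i, q u i * q v i < 0) := by
    rw [Filter.eventually_all]
    intro u
    rw [Filter.eventually_all]
    intro v
    apply Filter.Eventually.and
    · by_cases h1 : 0 < ∑ i, p u i * q v i
      · filter_upwards [(hcont u v).eventually (lt_mem_nhds h1)] with ε hε _
        exact hε
      · exact Filter.Eventually.of_forall fun ε h2 => absurd h2 h1
    · by_cases h1 : ∑ i, p u i * q v i < 0
      · filter_upwards [(hcont u v).eventually (gt_mem_nhds h1)] with ε hε _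
        exact hε
      · exact Filter.Eventually.of_forall fun ε h2 => absurd h2 h1
  obtain ⟨ε, hε, hε0⟩ := (hev.and self_mem_nhdsWithin).exists
  have hε1 : 0 < ε := hε0
  refine ⟨fun u i => p u i + ε * q u i, fun u v _ => ?_, fun u => ?_⟩
  · rw [hexp]
    exact hε u v
  · rw [hexp]
    rcases lt_trichotomy (∑ i, p u i * q u i) 0 with h1 | h1 | h1
    · exact ((hε u u).2 h1).ne
    · rw [h1, zero_add]
      exact (mul_pos hε1 (hq u)).ne'
    · exact ((hε u u).1 h1).ne'

/-- protocols may waste bits -/
lemma pad {X Y : Type} {F : X → Y → Bool} {c c' : ℕ} (h : Prot F c) (hc : c ≤ c') : Prot F c' := by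
  have h1 := Prot.bind h (F := fun v _ _ => v) (b := c' - c) (fun v =>
    ⟨fun _ => true, fun _ _ => true, fun _ _ => true, fun _ => v, fun _ _ => rfl⟩)
  rwa [Nat.add_sub_of_le hc] at h1

/-- a protocol for one part -/
lemma part_prot {V : Type} [Fintype V] (G : SimpleGraph V) [DecidableRel G.Adj] (W : Set V)
    (s : ℕ) (hs : 1 ≤ s) (h : SignRepresented G W s) :
    ∃ c : ℕ, Prot (fun a b : W => decide (G.Adj a b)) c ∧
      (c : ℝ) ≤ 200 * Real.sqrt s * (1 + Real.logb 2 ((G.adjMatrix ℝ).rank : ℝ)) ^ 2 := by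
  classical
  obtain ⟨p, q, hpq⟩ := h
  have : Fintype W := Fintype.ofFinite W
  rcases subsingleton_or_nontrivial W with hW | hW
  · refine ⟨0, ?_, by rw [Nat.cast_zero]; positivity⟩
    have e : (fun a b : W => decide (G.Adj a b)) = fun _ _ => false := by
      funext a b
      rw [Subsingleton.elim a b]
      simp
    rw [e]
    exact Prot.const false
  · have hne : ∀ u v : W, u ≠ v → ∑ i, p u i * q v i ≠ 0 := by
      intro u v huv
      have h1 := hpq u u.2 v v.2 (fun h => huv (Subtype.ext h))
      by_cases h2 : G.Adj u v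
      · exact (h1.1 h2).ne'
      · exact (h1.2 h2).ne
    obtain ⟨p', hp1, hp2⟩ := perturb (fun u : W => p u) (fun u : W => q u) hne hW
    have hp3 : ∀ u v : W, ∑ i, p' u i * q v i ≠ 0 := by
      intro u v
      by_cases huv : u = v
      · rw [huv]
        exact hp2 v
      · rcases lt_or_gt_of_ne (hne u v huv) with h1 | h1
        · exact ((hp1 u v huv).2 h1).ne
        · exact ((hp1 u v huv).1 h1).ne'
    set F : W → W → Bool := fun a b => decide (G.Adj a b) with hF
    set f : W → W → Bool := fun a b => decide (0 < ∑ i, p' a i * q b i) with hf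
    have hFf : ∀ (x : W) (T : Finset W), (T.filter (fun y => F x y ≠ f x y)).card ≤ 1 := by
      intro x T
      rw [card_le_one]
      intro y hy z hz
      have key : ∀ w : W, F x w ≠ f x w → w = x := by
        intro w hw
        by_contra hwx
        apply hw
        have h1 := hpq x x.2 w w.2 (fun h => hwx (Subtype.ext h).symm)
        have h2 := hp1 x w (fun h => hwx h.symm)
        simp only [hF, hf]
        by_cases h3 : G.Adj x w
        · have h4 := h2.1 (h1.1 h3)
          simp [h3, h4]
        · have h4 := h2.2 (h1.2 h3)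
          simp [h3, not_lt.2 h4.le]
      rw [key y (mem_filter.1 hy).2, key z (mem_filter.1 hz).2]
    obtain ⟨c, hc, hc2⟩ := Pool.Agent.Run7.h671.SK.main F f s 1 hs le_rfl hFf p' (fun v => q v)
      (fun x y h => by simpa [hf, dotProduct] using h)
      (fun x y h => by
        simp only [hf, decide_eq_false_iff_not, not_lt] at h
        exact lt_of_le_of_ne h (hp3 x y))
    refine ⟨c, hc, hc2.trans ?_⟩
    have hrk : (Pool.Agent.H630R2.LR.comm F).rank ≤ (G.adjMatrix ℝ).rank := by
      have e : Pool.Agent.H630R2.LR.comm F = (G.adjMatrix ℝ).submatrix Subtype.val Subtype.val := by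
        ext x y
        simp [Pool.Agent.H630R2.LR.comm, F, SimpleGraph.adjMatrix_apply]
      rw [e]
      exact Matrix.rank_submatrix_le _ _ _
    have hlog : Real.logb 2 ((Pool.Agent.H630R2.LR.comm F).rank : ℝ) ≤
        Real.logb 2 ((G.adjMatrix ℝ).rank : ℝ) := by
      rcases Nat.eq_zero_or_pos (Pool.Agent.H630R2.LR.comm F).rank with h0 | h0
      · rw [h0, Nat.cast_zero, Real.logb_zero]
        exact Run7.h284.SR.logb_nonneg _
      · exact Real.logb_le_logb_of_le (by norm_num) (by exact_mod_cast h0) (by exact_mod_cast hrk)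
    have h0 : 0 ≤ Real.logb 2 ((Pool.Agent.H630R2.LR.comm F).rank : ℝ) :=
      Run7.h284.SR.logb_nonneg _
    rw [Nat.cast_one, Real.logb_one, mul_zero, add_zero]
    gcongr

/-- **Chromatic number and rank for graphs of small sign rank off the diagonal.** Let `G` be a finite
graph whose adjacency matrix has real rank `r`, and let its vertices be divided into `t` parts such
that inside each part the adjacency of different vertices `u`, `v` is given by the sign of an inner
product `⟨p u, q v⟩` in `ℝ ^ s`, `s ≥ 1` (nothing is required for `u = v`, or for vertices in different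
parts). Then `log₂ χ(G) ≤ log₂ t + 200 √s (1 + log₂ r) ^ 2`. -/
theorem result (V : Type) [Fintype V] (G : SimpleGraph V) [DecidableRel G.Adj] (t s : ℕ)
    (hs : 1 ≤ s) (part : V → Fin t) (h : ∀ i, SignRepresented G {v | part v = i} s) :
    Real.logb 2 (G.chromaticNumber.toNat : ℝ) ≤
      Real.logb 2 t + 200 * Real.sqrt s * (1 + Real.logb 2 ((G.adjMatrix ℝ).rank : ℝ)) ^ 2 := by
  classical
  set B : ℝ := 200 * Real.sqrt s * (1 + Real.logb 2 ((G.adjMatrix ℝ).rank : ℝ)) ^ 2 with hB
  have hB0 : 0 ≤ B := by positivity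
  have hP : ∀ i, Prot (fun a b : {v | part v = i} => decide (G.Adj a b)) ⌊B⌋₊ := by
    intro i
    obtain ⟨c, hc, hc2⟩ := part_prot G {v | part v = i} s hs (h i)
    exact pad hc (Nat.le_floor hc2)
  have hcol := Pool.Agent.N609.AndRank.colorable_of_prot G t ⌊B⌋₊ (fun i => {v | part v = i})
    (fun i x => x.1) (fun v => ⟨part v, ⟨v, rfl⟩, rfl⟩) _ (fun i x y => by simp) hP
  have h1 := Pool.Agent.N609.AndRank.logb_chi_le G t _ hcol
  have h2 : ((⌊B⌋₊ : ℕ) : ℝ) ≤ B := Nat.floor_le hB0
  linarith

end Pool.Agent.Results.MP_3bd889_lc.SignRankGraphs
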