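import Pool.Agent.Run7.h671.Doub
import Pool.Agent.Run7.h671.Chi

/-!
# Chromatic number and rank for graphs with few symmetric differences of neighbourhoods
-/

set_option autoImplicit false

namespace Pool.Agent.Results.MP_3bd889_lc.SmallDoublingNeighbourhoods

open Pool.Agent.Run7.h671

/-- the neighbourhoods in `W i` of the vertices of the part `i` -/
def Nbhds {V : Type} {t : ℕ} (G : SimpleGraph V) (part : V → Fin t) (W : Fin t → Set V)
    (i : Fin t) : Set (Set V) :=
  {S | ∃ v, part v = i ∧ S = {y | y ∈ W i ∧ G.Adj v y}}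

/-- the symmetric differences of two neighbourhoods in `W i` of vertices of the part `i` -/
def Differences {V : Type} {t : ℕ} (G : SimpleGraph V) (part : V → Fin t) (W : Fin t → Set V)
    (i : Fin t) : Set (Set V) :=
  {S | ∃ u v, part u = i ∧ part v = i ∧ S = {y | y ∈ W i ∧ ¬ (G.Adj u y ↔ G.Adj v y)}}

/-- one part -/
lemma one_part {V : Type} [Fintype V] (G : SimpleGraph V) [DecidableRel G.Adj] {t : ℕ}
    (part : V → Fin t) (W : Fin t → Set V) (hW : ∀ v, v ∈ W (part v)) (i : Fin t) (K : ℝ)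
    (h : ((Differences G part W i).ncard : ℝ) ≤ K * ((Nbhds G part W i).ncard : ℝ)) (L : ℕ)
    (hL : (2 * K) ^ 82010 ≤ ((2 ^ L : ℕ) : ℝ)) :
    ∃ (τ : V → ℕ) (q : ℕ → V → ℕ), (∀ x, τ x < 2 ^ L) ∧
      (∀ m y, q m y < 2 * (((G.adjMatrix ℝ).rank + 1) * 2 ^ L)) ∧
      ∀ x y, part x = i → part y = i → q (τ x) x = q (τ x) y → ¬ G.Adj x y := by
  classical
  by_cases hne : ∃ x, part x = i
  swap
  · refine ⟨fun _ => 0, fun _ _ => 0, fun _ => by positivity, fun _ _ => by positivity, ?_⟩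
    intro x y hx
    exact absurd ⟨x, hx⟩ hne
  obtain ⟨x₀, hx₀⟩ := hne
  haveI : Nonempty {x // part x = i} := ⟨⟨x₀, hx₀⟩⟩
  let F : {x // part x = i} → {y // y ∈ W i} → Bool := fun x y => decide (G.Adj x.1 y.1)
  let φ : ({y // y ∈ W i} → Bool) → Set V := fun g => {y | ∃ h : y ∈ W i, g ⟨y, h⟩ = true}
  have hφ : Function.Injective φ := by
    intro g g' hgg
    funext y
    have h1 : y.1 ∈ φ g ↔ y.1 ∈ φ g' := by rw [hgg]
    have h2 : (∃ h : y.1 ∈ W i, g ⟨y.1, h⟩ = true) ↔ g y = true := ⟨fun ⟨_, h⟩ => h, fun h => ⟨y.2, h⟩⟩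
    have h3 : (∃ h : y.1 ∈ W i, g' ⟨y.1, h⟩ = true) ↔ g' y = true :=
      ⟨fun ⟨_, h⟩ => h, fun h => ⟨y.2, h⟩⟩
    have h4 : g y = true ↔ g' y = true := by
      rw [← h2, ← h3]
      exact h1
    cases hg : g y <;> cases hg' : g' y <;> simp [hg, hg'] at h4 ⊢
  have e1 : Nbhds G part W i = φ '' (Set.range F) := by
    ext S
    constructor
    · rintro ⟨v, hv, rfl⟩
      refine ⟨_, ⟨⟨v, hv⟩, rfl⟩, ?_⟩
      ext y
      simp [φ, F]
    · rintro ⟨_, ⟨⟨v, hv⟩, rfl⟩, rfl⟩
      refine ⟨v, hv, ?_⟩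
      ext y
      simp [φ, F]
  have hx : ∀ a b : Bool, (xor a b = true) ↔ ¬ (a = true ↔ b = true) := by decide
  have e2 : Differences G part W i =
      φ '' ({g | ∃ x x', g = fun y => xor (F x y) (F x' y)} : Set ({y // y ∈ W i} → Bool)) := by
    ext S
    constructor
    · rintro ⟨u, v, hu, hv, rfl⟩
      refine ⟨_, ⟨⟨u, hu⟩, ⟨v, hv⟩, rfl⟩, ?_⟩
      ext y
      simp only [φ, F, Set.mem_setOf_eq, hx, decide_eq_true_eq, exists_prop]
    · rintro ⟨_, ⟨⟨u, hu⟩, ⟨v, hv⟩, rfl⟩, rfl⟩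
      refine ⟨u, v, hu, hv, ?_⟩
      ext y
      simp only [φ, F, Set.mem_setOf_eq, hx, decide_eq_true_eq, exists_prop]
  have h1 := h
  rw [e1, e2, Set.ncard_image_of_injective _ hφ, Set.ncard_image_of_injective _ hφ] at h1
  obtain ⟨τ, q, hτ, hq, hF⟩ := doubling_index F K h1 L hL
  have hrk : (Matrix.of (fun (x : {x // part x = i}) (y : {y // y ∈ W i}) =>
      if F x y then (1 : ℝ) else 0)).rank ≤ (G.adjMatrix ℝ).rank := by
    have : (Matrix.of (fun (x : {x // part x = i}) (y : {y // y ∈ W i}) =>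
      if F x y then (1 : ℝ) else 0)) = (G.adjMatrix ℝ).submatrix Subtype.val Subtype.val := by
      ext x y
      simp [F, SimpleGraph.adjMatrix_apply]
    rw [this]
    exact Matrix.rank_submatrix_le _ _ _
  refine ⟨fun x => if hx : part x = i then τ ⟨x, hx⟩ else 0,
    fun m y => if hy : y ∈ W i then q m ⟨y, hy⟩ else 0, ?_, ?_, ?_⟩
  · intro x
    dsimp only
    split_ifs
    · exact hτ _
    · positivity
  · intro m y
    dsimp only
    split_ifs
    · refine lt_of_lt_of_le (hq _ _) ?_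
      gcongr
    · positivity
  · intro x y hxi hyi hqq
    have hxW : x ∈ W i := by
      rw [← hxi]
      exact hW x
    have hyW : y ∈ W i := by
      rw [← hyi]
      exact hW y
    simp only [hxi, hxW, hyW, dif_pos] at hqq
    have h2 := hF ⟨x, hxi⟩ ⟨x, hxW⟩ ⟨y, hyW⟩ hqq
    have h3 : decide (G.Adj x x) = decide (G.Adj x y) := h2
    intro h4
    rw [decide_eq_true h4, decide_eq_true_eq] at h3
    exact G.loopless.irrefl x h3

/-- **Few symmetric differences of neighbourhoods.** Let `G` be a finite graph whose adjacency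
matrix has real rank `r`. Let the vertices be divided into `t` parts, and let `W i` be a set of
vertices which contains the part `i` (for example the part `i`, or the set of all vertices). If for
each `i` the number of symmetric differences of two sets `N(v) ∩ W i`, `v` in the part `i`, is at
most `K` times the number of such sets, then
`log₂ χ(G) ≤ log₂ (r + 1) + log₂ t + 164020 log₂ (2 K) + 3`. -/
theorem result (V : Type) [Fintype V] (G : SimpleGraph V) [DecidableRel G.Adj] (t : ℕ)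
    (part : V → Fin t) (W : Fin t → Set V) (hW : ∀ v, v ∈ W (part v)) (K : ℝ) (hK : 1 ≤ K)
    (h : ∀ i, ((Differences G part W i).ncard : ℝ) ≤ K * ((Nbhds G part W i).ncard : ℝ)) :
    Real.logb 2 (G.chromaticNumber.toNat : ℝ) ≤
      Real.logb 2 ((G.adjMatrix ℝ).rank + 1) + Real.logb 2 t + 164020 * Real.logb 2 (2 * K) + 3 := by
  classical
  have hK0 : (0 : ℝ) < 2 * K := by linarith
  have hlog : 0 ≤ Real.logb 2 (2 * K) := Real.logb_nonneg (by norm_num) (by linarith)
  obtain ⟨L, hLdef⟩ : ∃ L : ℕ, L = ⌈82010 * Real.logb 2 (2 * K)⌉₊ := ⟨_, rfl⟩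
  have hL1 : (L : ℝ) ≤ 82010 * Real.logb 2 (2 * K) + 1 := by
    rw [hLdef]
    exact (Nat.ceil_lt_add_one (by positivity)).le
  have hL2 : (2 * K) ^ 82010 ≤ ((2 ^ L : ℕ) : ℝ) := by
    have h1 : 82010 * Real.logb 2 (2 * K) ≤ L := by
      rw [hLdef]
      exact Nat.le_ceil _
    have h2 : Real.logb 2 ((2 * K) ^ 82010) ≤ (L : ℝ) := by
      rw [Real.logb_pow]
      push_cast
      exact h1
    rw [Real.logb_le_iff_le_rpow (by norm_num) (by positivity), Real.rpow_natCast] at h2
    push_cast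
    exact h2
  choose τ q hτ hq hF using fun i => one_part G part W hW i K (h i) L hL2
  set N := (G.adjMatrix ℝ).rank with hN
  let C : G.Coloring (Fin t × (Fin (2 ^ L) × Fin (2 * ((N + 1) * 2 ^ L)))) :=
    SimpleGraph.Coloring.mk
      (fun v => (part v, ⟨τ (part v) v, hτ _ v⟩, ⟨q (part v) (τ (part v) v) v, hq _ _ v⟩)) (by
      intro u v huv heq
      simp only [Prod.mk.injEq, Fin.mk.injEq] at heq
      obtain ⟨h1, h2, h3⟩ := heq
      apply hF (part u) u v rfl h1.symm ?_ huv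
      rw [h3, ← h2, ← h1])
  have h2 := C.colorable
  rw [Fintype.card_prod, Fintype.card_prod, Fintype.card_fin, Fintype.card_fin,
    Fintype.card_fin] at h2
  have h3 := logb_chi_le' G _ _ h2 (by positivity)
  have h4 : Real.logb 2 (((2 ^ L * (2 * ((N + 1) * 2 ^ L)) : ℕ)) : ℝ) =
      L + (1 + (Real.logb 2 ((N : ℝ) + 1) + L)) := by
    have e1 : (((2 ^ L * (2 * ((N + 1) * 2 ^ L)) : ℕ)) : ℝ) =
        2 ^ L * (2 * (((N : ℝ) + 1) * 2 ^ L)) := by
      push_cast
      ring
    rw [e1, Real.logb_mul (by positivity) (by positivity),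
      Real.logb_mul (by norm_num) (by positivity), Real.logb_mul (by positivity) (by positivity),
      Real.logb_pow]
    simp
  rw [h4] at h3
  linarith

end Pool.Agent.Results.MP_3bd889_lc.SmallDoublingNeighbourhoods
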